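import Pool.Agent.H261R3.LN.SStmts

/-! Task BallBd of project LS (MP_e25190_gt). -/

set_option autoImplicit false

namespace Pool.Agent.H119R3.LN

open Pool.Agent.H261R3.LN

theorem cosh_bound {m : ℕ} (R : ℝ) (z : Hyp m) (h : hdist z (origin m) ≤ R) :
    ‖z.x‖ ^ 2 + (z.y - 1) ^ 2 ≤ 2 * z.y * (Real.cosh R - 1) := by
  have hy := z.pos
  have h1 : (1 : ℝ) ≤ 1 + (‖z.x‖ ^ 2 + (z.y - 1) ^ 2) / (2 * z.y * 1) := by
    have : 0 ≤ (‖z.x‖ ^ 2 + (z.y - 1) ^ 2) / (2 * z.y * 1) := by positivity
    linarith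
  have h2 : hdist z (origin m) = Real.arcosh (1 + (‖z.x‖ ^ 2 + (z.y - 1) ^ 2) / (2 * z.y * 1)) := by
    simp [hdist, origin]
  rw [h2] at h
  have h0 : 0 ≤ Real.arcosh (1 + (‖z.x‖ ^ 2 + (z.y - 1) ^ 2) / (2 * z.y * 1)) :=
    Real.arcosh_nonneg h1
  have h3 : 1 + (‖z.x‖ ^ 2 + (z.y - 1) ^ 2) / (2 * z.y * 1) ≤ Real.cosh R := by
    rw [← Real.cosh_arcosh h1]
    rw [Real.cosh_le_cosh, abs_of_nonneg h0, abs_of_nonneg (h0.trans h)]
    exact h
  have h4 : (‖z.x‖ ^ 2 + (z.y - 1) ^ 2) / (2 * z.y * 1) ≤ Real.cosh R - 1 := by linarith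
  rw [div_le_iff₀ (by positivity)] at h4
  linarith

theorem taskBallBd : TaskBallBd := by
  intro m R
  set K : ℝ := 2 * Real.cosh R + 2 with hK
  have hc := Real.one_le_cosh R
  have hK4 : 4 ≤ K := by linarith
  refine ⟨K, fun z hz => ?_⟩
  have hy := z.pos
  have hb := cosh_bound R z hz
  have hn : 0 ≤ ‖z.x‖ ^ 2 := by positivity
  -- bounds on y
  have hyK : z.y ≤ K := by
    by_contra hcon
    push Not at hcon
    nlinarith
  have hyK' : 1 / K ≤ z.y := by
    rw [div_le_iff₀ (by linarith)]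
    nlinarith
  have hx2 : ‖z.x‖ ^ 2 ≤ K ^ 2 := by
    nlinarith
  have hx : ‖z.x‖ ≤ K := by
    have := abs_le_of_sq_le_sq hx2 (by linarith)
    exact (abs_le.mp this |>.2)
  constructor
  · intro i
    have := EuclideanSpace.norm_eq z.x
    have h5 : ‖z.x i‖ ≤ ‖z.x‖ := PiLp.norm_apply_le z.x i
    rw [Real.norm_eq_abs] at h5
    linarith
  · have hlog2 : 0 < Real.log 2 := Real.log_pos (by norm_num)
    have hl2 : (0.5 : ℝ) ≤ Real.log 2 := by
      have := Real.log_two_gt_d9
      linarith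
    have hKlog : Real.logb 2 K ≤ K := by
      rw [Real.logb_le_iff_le_rpow (by norm_num) (by linarith)]
      have h6 : Real.log K ≤ K / 2 := by
        have h7 := Real.log_le_sub_one_of_pos (show 0 < K / 2 by linarith)
        have h8 : Real.log K = Real.log (K / 2) + Real.log 2 := by
          rw [← Real.log_mul (by linarith) (by norm_num)]
          congr 1
          ring
        have h9 : Real.log 2 ≤ 1 := by
          have := Real.log_two_lt_d9
          linarith
        linarith
      calc K = Real.exp (Real.log K) := (Real.exp_log (by linarith)).symm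
        _ ≤ Real.exp (Real.log 2 * K) := by
            apply Real.exp_le_exp.mpr
            nlinarith
        _ = 2 ^ K := by rw [Real.rpow_def_of_pos (by norm_num)]
    rw [abs_le]
    constructor
    · have : Real.logb 2 (1 / K) ≤ Real.logb 2 z.y :=
        Real.logb_le_logb_of_le (by norm_num) (by positivity) hyK'
      rw [one_div, Real.logb_inv] at this
      linarith
    · have : Real.logb 2 z.y ≤ Real.logb 2 K :=
        Real.logb_le_logb_of_le (by norm_num) hy hyK
      linarith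

end Pool.Agent.H119R3.LN

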